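import Mathlib.Data.Set.Finite.Basic
import Mathlib.Data.Multiset.Basic
import Mathlib.Algebra.BigOperators.Group.Multiset.Basic
import Mathlib.Algebra.Order.BigOperators.Group.Multiset
import Mathlib.Data.Rat.Defs
import Mathlib.Algebra.Order.Ring.Rat
import Mathlib.Algebra.Order.Group.Abs
import Mathlib.Tactic.Linarith
import Mathlib.Tactic.Ring

/-!
# Ordinary primes: one prime for each object is enough

Slopes are finite multisets of rational numbers. The transform `legendre M t` is the sum of the
numbers `max (t - s) 0` over the slopes `s` of `M`: it is the Legendre transform of the convex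
polygon with slopes `M`.
-/

universe u v

namespace Pool.Agent.TH116.OP

/-- The Legendre transform of the convex polygon with slopes `M`. -/
def legendre (M : Multiset ℚ) (t : ℚ) : ℚ := (M.map fun s => max (t - s) 0).sum

/-- The polygon with slopes `N` lies on or above the polygon with slopes `H`. -/
def Above (N H : Multiset ℚ) : Prop := ∀ t, legendre N t ≤ legendre H t

lemma legendre_add (M N : Multiset ℚ) (t : ℚ) :
    legendre (M + N) t = legendre M t + legendre N t := by
  simp [legendre]

lemma legendre_cons (a : ℚ) (M : Multiset ℚ) (t : ℚ) :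
    legendre (a ::ₘ M) t = max (t - a) 0 + legendre M t := by
  simp [legendre]

/-- If both polygons lie on or above the others and the sums agree, then the transforms agree. -/
lemma legendre_eq_of_add {N N' H H' : Multiset ℚ} (h : Above N H) (h' : Above N' H')
    (he : N + N' = H + H') (t : ℚ) : legendre N t = legendre H t := by
  have h1 := congrArg (fun M => legendre M t) he
  simp only [legendre_add] at h1
  have h2 := h t
  have h3 := h' t
  linarith

lemma exists_gap (M : Multiset ℚ) (s : ℚ) : ∃ δ : ℚ, 0 < δ ∧ ∀ a ∈ M, a ≠ s → δ ≤ |a - s| := by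
  induction M using Multiset.induction with
  | empty => exact ⟨1, one_pos, by simp⟩
  | cons b M ih =>
    obtain ⟨δ, hδ, h⟩ := ih
    by_cases hb : b = s
    · refine ⟨δ, hδ, fun a ha hne => ?_⟩
      rcases Multiset.mem_cons.1 ha with rfl | h1
      · exact absurd hb hne
      · exact h a h1 hne
    · refine ⟨min δ |b - s|, lt_min hδ (abs_pos.2 (sub_ne_zero.2 hb)), fun a ha hne => ?_⟩
      rcases Multiset.mem_cons.1 ha with rfl | h1
      · exact min_le_right _ _
      · exact (min_le_left _ _).trans (h a h1 hne)

lemma second_difference (M : Multiset ℚ) (s δ : ℚ) (hδ : 0 < δ)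
    (h : ∀ a ∈ M, a ≠ s → δ ≤ |a - s|) :
    legendre M (s + δ) - 2 * legendre M s + legendre M (s - δ) = δ * (M.count s : ℚ) := by
  induction M using Multiset.induction with
  | empty => simp [legendre]
  | cons b M ih =>
    have h1 := ih fun a ha => h a (Multiset.mem_cons_of_mem ha)
    rw [legendre_cons, legendre_cons, legendre_cons]
    by_cases hb : b = s
    · subst hb
      rw [Multiset.count_cons_self]
      push_cast
      have e1 : max (b + δ - b) 0 = δ := by rw [add_sub_cancel_left]; exact max_eq_left hδ.le
      have e2 : max (b - b) (0 : ℚ) = 0 := by simp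
      have e3 : max (b - δ - b) 0 = 0 := max_eq_right (by linarith)
      rw [e1, e2, e3]
      linarith
    · rw [Multiset.count_cons_of_ne (Ne.symm hb)]
      have h2 := h b (Multiset.mem_cons_self b M) hb
      rcases le_abs.1 h2 with h3 | h3
      · have e1 : max (s + δ - b) 0 = 0 := max_eq_right (by linarith)
        have e2 : max (s - b) (0 : ℚ) = 0 := max_eq_right (by linarith)
        have e3 : max (s - δ - b) 0 = 0 := max_eq_right (by linarith)
        rw [e1, e2, e3]
        linarith
      · have e1 : max (s + δ - b) 0 = s + δ - b := max_eq_left (by linarith)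
        have e2 : max (s - b) (0 : ℚ) = s - b := max_eq_left (by linarith)
        have e3 : max (s - δ - b) 0 = s - δ - b := max_eq_left (by linarith)
        rw [e1, e2, e3]
        linarith

/-- The transform determines the slopes. -/
lemma eq_of_legendre {N H : Multiset ℚ} (h : ∀ t, legendre N t = legendre H t) : N = H := by
  ext s
  obtain ⟨δ, hδ, hg⟩ := exists_gap (N + H) s
  have h1 := second_difference N s δ hδ fun a ha => hg a (Multiset.mem_add.2 (Or.inl ha))
  have h2 := second_difference H s δ hδ fun a ha => hg a (Multiset.mem_add.2 (Or.inr ha))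
  rw [h, h, h, h2] at h1
  have h3 := mul_left_cancel₀ hδ.ne' h1
  exact_mod_cast h3.symm

/-- Galois representations with Newton polygons and Hodge polygons. -/
structure Systems where
  /-- the primes of the number field -/
  Prime : Type v
  /-- the representations of the problem -/
  Obj : Type u
  /-- the primes at which the representation is unramified -/
  good : Obj → Set Prime
  /-- the slopes of the Newton polygon at a prime -/
  newton : Obj → Prime → Multiset ℚ
  /-- the slopes of the Hodge-Tate polygon -/
  hodge : Obj → Multiset ℚ
  /-- a finite set of primes -/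
  bad : Obj → Finset Prime
  above : ∀ V, ∀ v ∈ good V, v ∉ bad V → Above (newton V v) (hodge V)
  /-- for a finite set `S` of primes, `V` is a summand of a representation of the problem which is
  not ordinary at the primes of `S` -/
  enlarge : ∀ (V : Obj) (S : Finset Prime), ∃ (V' : Obj) (N : Prime → Multiset ℚ) (H : Multiset ℚ),
    good V' ⊆ good V ∧ hodge V' = hodge V + H ∧
    (∀ v ∈ good V', newton V' v = newton V v + N v) ∧
    (∀ v ∈ good V', v ∉ bad V → Above (N v) H) ∧
    ∀ v ∈ S, v ∈ good V' → newton V' v ≠ hodge V'

/-- The prime `v` is ordinary for `V`. -/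
def Systems.Ordinary (T : Systems.{u, v}) (V : T.Obj) (v : T.Prime) : Prop :=
  v ∈ T.good V ∧ T.newton V v = T.hodge V

/-- Infinitely many ordinary primes for each representation, versus one ordinary prime for each. -/
theorem Systems.infinite_iff (T : Systems.{u, v}) :
    (∀ V, {v | T.Ordinary V v}.Infinite) ↔ ∀ V, ∃ v, T.Ordinary V v := by
  classical
  constructor
  · intro h V
    exact (h V).nonempty
  · intro h V hfin
    obtain ⟨V', N, H, hg, hH, hN, hab, hS⟩ := T.enlarge V (hfin.toFinset ∪ T.bad V)
    obtain ⟨v, hv, he⟩ := h V'
    have h1 : v ∉ hfin.toFinset ∪ T.bad V := fun hmem => hS v hmem hv he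
    rw [Finset.mem_union, not_or] at h1
    refine h1.1 (hfin.mem_toFinset.2 ⟨hg hv, eq_of_legendre fun t => ?_⟩)
    refine legendre_eq_of_add (T.above V v (hg hv) h1.2) (hab v hv h1.2) ?_ t
    rw [← hN v hv, he, hH]

end Pool.Agent.TH116.OP
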